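import Pool.Agent.Helper46.C2.St

/-! Project C2 (MP_b3ce06_al), module SM. -/

set_option autoImplicit false

namespace Pool.Agent.Helper75.C2

open Pool.Agent.Helper46.C2 Pool.Agent.Helper43.GD Polynomial

theorem stab_inv {L : Type} [CommRing L] [Finite L] (N : AddSubgroup L) (u : Lˣ)
    (h : ∀ y ∈ N, (u : L) * y ∈ N) : ∀ y ∈ N, ((u⁻¹ : Lˣ) : L) * y ∈ N := by
  have hp : ∀ n : ℕ, ∀ y ∈ N, (u : L) ^ n * y ∈ N := by
    intro n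
    induction n with
    | zero => intro y hy; simpa using hy
    | succ n ih =>
      intro y hy
      rw [pow_succ, mul_assoc]
      exact ih _ (h y hy)
  obtain ⟨n, hn, h1⟩ := (isOfFinOrder_iff_pow_eq_one.1 (isOfFinOrder_of_finite u))
  obtain ⟨k, rfl⟩ : ∃ k, n = k + 1 := ⟨n - 1, by omega⟩
  have e : u⁻¹ = u ^ k := by
    rw [inv_eq_iff_mul_eq_one, ← h1, pow_succ, mul_comm]
  intro y hy
  rw [e, Units.val_pow_eq_pow_val]
  exact hp k y hy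

theorem key (h1 : StRU) {L A : Type} [CommRing L] [Group A] (Q : Fr L A) (m : ℕ) (hf : Finite L)
    (two : (2 : L) = 0) (hm : 1 ≤ m) (hmy : ∀ y : L, y ^ (2 ^ m) = y)
    (ξ η ξ' η' c : Lˣ) (hξ : ξ ∈ Q.U) (hη : η ∈ Q.U) (hξ' : ξ' ∈ Q.U) (hη' : η' ∈ Q.U)
    (hc : c ∈ Q.U) (e1 : (ξ' : L) = 1 + (ξ : L)) (e2 : (η' : L) = 1 + (η : L)) (P : L)
    (e3 : P = (c : L) * ((ξ : L) + (η : L))) (hu : IsUnit P)
    (hN : ∀ N : AddSubgroup L, (1 : L) ∈ N → (∀ y ∈ N, (η : L) * y ∈ N) → ∀ y, y ∈ N) :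
    Q.In P := by
  have hu2 : IsUnit ((ξ : L) + (η : L)) := by
    rw [e3] at hu
    exact isUnit_of_mul_isUnit_right hu
  obtain ⟨v, hv, hv2⟩ := h1 L A Q m (ξ : L) (η : L) hf two hm hmy ⟨ξ, hξ, rfl⟩ ⟨η, hη, rfl⟩
    ⟨ξ', hξ', e1⟩ ⟨η', hη', e2⟩ hu2 (fun N h1N _ hηN => hN N h1N hηN)
  exact ⟨c * v, Q.U.mul_mem hc hv, by rw [Units.val_mul, hv2, e3]⟩

theorem cases_deg (a0 a1 a2 a3 a4 : ZMod 2) (h0 : a0 ≠ 0) (h1 : a0 + a1 + a2 + a3 + a4 ≠ 0) :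
    a0 = 1 ∧ ((a1 = 0 ∧ a2 = 0 ∧ a3 = 0 ∧ a4 = 0) ∨ (a1 = 1 ∧ a2 = 1 ∧ a3 = 0 ∧ a4 = 0) ∨
      (a1 = 1 ∧ a2 = 0 ∧ a3 = 1 ∧ a4 = 0) ∨ (a1 = 0 ∧ a2 = 1 ∧ a3 = 1 ∧ a4 = 0) ∨
      (a1 = 1 ∧ a2 = 0 ∧ a3 = 0 ∧ a4 = 1) ∨ (a1 = 0 ∧ a2 = 1 ∧ a3 = 0 ∧ a4 = 1) ∨
      (a1 = 0 ∧ a2 = 0 ∧ a3 = 1 ∧ a4 = 1) ∨ (a1 = 1 ∧ a2 = 1 ∧ a3 = 1 ∧ a4 = 1)) := by
  have hz : ∀ a : ZMod 2, a = 0 ∨ a = 1 := by decide
  have t2 : (1 : ZMod 2) + 1 = 0 := by decide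
  rcases hz a0 with r0 | r0
  · exact absurd r0 h0
  refine ⟨r0, ?_⟩
  subst r0
  rcases hz a1 with r1 | r1 <;> rcases hz a2 with r2 | r2 <;> rcases hz a3 with r3 | r3 <;>
    rcases hz a4 with r4 | r4 <;> subst r1 <;> subst r2 <;> subst r3 <;> subst r4 <;>
    first
      | exact absurd (by decide) h1
      | simp

theorem irr_cases (p : (ZMod 2)[X]) (hp : Irreducible p) (h2 : 2 ≤ p.natDegree)
    (h4 : p.natDegree ≤ 4) :
    p = 1 + X + X ^ 2 ∨ p = 1 + X + X ^ 3 ∨ p = 1 + X ^ 2 + X ^ 3 ∨ p = 1 + X + X ^ 4 ∨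
    p = 1 + X ^ 3 + X ^ 4 ∨ p = 1 + X + X ^ 2 + X ^ 3 + X ^ 4 := by
  have hs : p = C (p.coeff 0) + C (p.coeff 1) * X + C (p.coeff 2) * X ^ 2 +
      C (p.coeff 3) * X ^ 3 + C (p.coeff 4) * X ^ 4 := by
    have := p.as_sum_range_C_mul_X_pow' (n := 5) (by omega)
    conv_lhs => rw [this]
    simp [Finset.sum_range_succ]
  have hr : ∀ r : ZMod 2, p.eval r ≠ 0 := by
    intro r hr
    have := degree_eq_one_of_irreducible_of_root hp (x := r) hr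
    have h5 : p.natDegree = 1 := natDegree_eq_of_degree_eq_some this
    omega
  have e0 : p.eval 0 = p.coeff 0 := by
    conv_lhs => rw [hs]
    simp
  have e1 : p.eval 1 = p.coeff 0 + p.coeff 1 + p.coeff 2 + p.coeff 3 + p.coeff 4 := by
    conv_lhs => rw [hs]
    simp
  have hz := hr 0
  have ho := hr 1
  rw [e0] at hz
  rw [e1] at ho
  obtain ⟨c0, hc⟩ := cases_deg _ _ _ _ _ hz ho
  have h20 : (2 : (ZMod 2)[X]) = 0 := by
    have := CharP.cast_eq_zero (ZMod 2)[X] 2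
    exact_mod_cast this
  rw [c0] at hs
  rcases hc with ⟨c1, c2, c3, c4⟩ | ⟨c1, c2, c3, c4⟩ | ⟨c1, c2, c3, c4⟩ | ⟨c1, c2, c3, c4⟩ |
    ⟨c1, c2, c3, c4⟩ | ⟨c1, c2, c3, c4⟩ | ⟨c1, c2, c3, c4⟩ | ⟨c1, c2, c3, c4⟩ <;>
    rw [c1, c2, c3, c4] at hs <;>
    simp only [C_0, C_1, zero_mul, one_mul, add_zero] at hs
  · exfalso
    rw [hs] at h2
    simp at h2
  · left; exact hs
  · right; left; exact hs
  · right; right; left; exact hs
  · right; right; right; left; exact hs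
  · exfalso
    have e : p = (1 + X + X ^ 2) * (1 + X + X ^ 2) := by
      rw [hs]
      linear_combination (-(X + X ^ 2 + X ^ 3 : (ZMod 2)[X])) * h20
    have hu : IsUnit (1 + X + X ^ 2 : (ZMod 2)[X]) := by
      rcases hp.isUnit_or_isUnit e with h | h <;> exact h
    exact hp.not_isUnit (by rw [e]; exact hu.mul hu)
  · right; right; right; right; left; exact hs
  · right; right; right; right; right; exact hs

theorem hSM (h1 : StRU) (h2 : StLF) (h3 : StOD) : StSM := by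
  intro k L A _ _ Q x hR hx ev hev p hp hd2 hd4 hu
  have hf : Finite L := h2 k L x hR
  obtain ⟨m, hm, hmy⟩ := h3 k L x hR
  have two := hR.two
  obtain ⟨s, hsd⟩ : ∃ s : Lˣ, s = x ^ k := ⟨_, rfl⟩
  have hs : s ∈ Q.U := by rw [hsd]; exact Q.U.pow_mem hx k
  have hsv : (s : L) = (x : L) + 1 := by
    rw [hsd, Units.val_pow_eq_pow_val, hR.xk]
  have hxi : x⁻¹ ∈ Q.U := Q.U.inv_mem hx
  have hsi : s⁻¹ ∈ Q.U := Q.U.inv_mem hs
  have Nx : ∀ N : AddSubgroup L, (1 : L) ∈ N → (∀ y ∈ N, (x : L) * y ∈ N) → ∀ y, y ∈ N :=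
    hR.gn
  have Nxi : ∀ N : AddSubgroup L, (1 : L) ∈ N → (∀ y ∈ N, ((x⁻¹ : Lˣ) : L) * y ∈ N) →
      ∀ y, y ∈ N := by
    intro N hN h
    apply Nx N hN
    have := stab_inv N x⁻¹ h
    rwa [inv_inv] at this
  have Nsi : ∀ N : AddSubgroup L, (1 : L) ∈ N → (∀ y ∈ N, ((s⁻¹ : Lˣ) : L) * y ∈ N) →
      ∀ y, y ∈ N := by
    intro N hN h
    apply Nx N hN
    have h5 := stab_inv N s⁻¹ h
    rw [inv_inv] at h5
    intro y hy
    have h6 := N.sub_mem (h5 y hy) hy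
    rw [hsv] at h6
    have e : ((x : L) + 1) * y - y = (x : L) * y := by ring
    rwa [e] at h6
  have xx : ((x⁻¹ : Lˣ) : L) * (x : L) = 1 := x.inv_mul
  have ss : ((s⁻¹ : Lˣ) : L) * (s : L) = 1 := s.inv_mul
  rw [hsv] at ss
  have K := key h1 Q m hf two hm hmy
  have hxn : ∀ n : ℕ, x ^ n ∈ Q.U := fun n => Q.U.pow_mem hx n
  have hsn : ∀ n : ℕ, s ^ n ∈ Q.U := fun n => Q.U.pow_mem hs n
  have hxin : ∀ n : ℕ, x⁻¹ ^ n ∈ Q.U := fun n => Q.U.pow_mem hxi n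
  have hsin : ∀ n : ℕ, s⁻¹ ^ n ∈ Q.U := fun n => Q.U.pow_mem hsi n
  rcases irr_cases p hp hd2 hd4 with rfl | rfl | rfl | rfl | rfl | rfl
  · refine K (s ^ 2) x (x ^ 2) s 1 (hsn 2) hx (hxn 2) hs Q.U.one_mem ?_ ?_ _ ?_ hu Nx
    · push_cast
      rw [hsv]
      linear_combination (-(1 + (x : L))) * two
    · rw [hsv]; ring
    · simp only [map_add, map_one, map_pow, hev]
      push_cast
      rw [hsv]
      linear_combination (-(x : L)) * two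
  · refine K (s ^ 2) x⁻¹ (x ^ 2) (s * x⁻¹) x (hsn 2) hxi (hxn 2) (Q.U.mul_mem hs hxi) hx
      ?_ ?_ _ ?_ hu Nxi
    · push_cast
      rw [hsv]
      linear_combination (-(1 + (x : L))) * two
    · push_cast
      rw [hsv]
      linear_combination xx
    · simp only [map_add, map_one, map_pow, hev]
      push_cast
      rw [hsv]
      linear_combination (-(x : L) ^ 2) * two - xx
  · refine K (s ^ 2 * x⁻¹ ^ 2) x (x⁻¹ ^ 2) s (x ^ 2) (Q.U.mul_mem (hsn 2) (hxin 2)) hx (hxin 2) hs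
      (hxn 2) ?_ ?_ _ ?_ hu Nx
    · push_cast
      rw [hsv]
      linear_combination (-(1 + ((x⁻¹ : Lˣ) : L))) * two -
        ((((x⁻¹ : Lˣ) : L) * (x : L)) + 1 + 2 * ((x⁻¹ : Lˣ) : L)) * xx
    · rw [hsv]; ring
    · simp only [map_add, map_one, map_pow, hev]
      push_cast
      rw [hsv]
      linear_combination (-(x : L)) * two -
        ((x : L) + 1) ^ 2 * ((((x⁻¹ : Lˣ) : L) * (x : L)) + 1) * xx
  · refine K (s ^ 4) x (x ^ 4) s 1 (hsn 4) hx (hxn 4) hs Q.U.one_mem ?_ ?_ _ ?_ hu Nx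
    · push_cast
      rw [hsv]
      linear_combination (-(1 + 2 * (x : L) + 3 * (x : L) ^ 2 + 2 * (x : L) ^ 3)) * two
    · rw [hsv]; ring
    · simp only [map_add, map_one, map_pow, hev]
      push_cast
      rw [hsv]
      linear_combination (-(2 * (x : L) + 3 * (x : L) ^ 2 + 2 * (x : L) ^ 3)) * two
  · have xx4 : ((x⁻¹ : Lˣ) : L) ^ 4 * (x : L) ^ 4 = 1 := by
      rw [← mul_pow, xx, one_pow]
    refine K (s ^ 4 * x⁻¹ ^ 4) x⁻¹ (x⁻¹ ^ 4) (s * x⁻¹) (x ^ 4) (Q.U.mul_mem (hsn 4) (hxin 4)) hxi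
      (hxin 4) (Q.U.mul_mem hs hxi) (hxn 4) ?_ ?_ _ ?_ hu Nxi
    · push_cast
      rw [hsv]
      linear_combination (-(1 + (2 * (x : L) + 3 * (x : L) ^ 2 + 2 * (x : L) ^ 3) *
        ((x⁻¹ : Lˣ) : L) ^ 4)) * two - xx4
    · push_cast
      rw [hsv]
      linear_combination xx
    · simp only [map_add, map_one, map_pow, hev]
      push_cast
      rw [hsv]
      linear_combination (-(2 * (x : L) + 3 * (x : L) ^ 2 + 2 * (x : L) ^ 3)) * two -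
        ((x : L) + 1) ^ 4 * xx4 - (x : L) ^ 3 * xx
  · have ss4 : ((s⁻¹ : Lˣ) : L) ^ 4 * ((x : L) + 1) ^ 4 = 1 := by
      rw [← mul_pow, ss, one_pow]
    refine K (x ^ 4 * s⁻¹ ^ 4) s⁻¹ (s⁻¹ ^ 4) (x * s⁻¹) (s ^ 4) (Q.U.mul_mem (hxn 4) (hsin 4)) hsi
      (hsin 4) (Q.U.mul_mem hx hsi) (hsn 4) ?_ ?_ _ ?_ hu Nsi
    · push_cast
      linear_combination (-1 + (((s⁻¹ : Lˣ) : L) ^ 4) * (1 + (2 * (x : L) + 3 * (x : L) ^ 2 +
        2 * (x : L) ^ 3))) * two - ss4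
    · push_cast
      linear_combination ss - ((s⁻¹ : Lˣ) : L) * two
    · simp only [map_add, map_one, map_pow, hev]
      push_cast
      rw [hsv]
      linear_combination (-((x : L) + (x : L) ^ 2)) * two
        - (x : L) ^ 4 * ss4 - ((x : L) + 1) ^ 3 * ss

end Pool.Agent.Helper75.C2
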